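import Pool.Agent.helper32.PN.Spec

set_option autoImplicit false

/-!
# Project PN, row PW: for odd parts the signs of the components drop out
-/

namespace Pool.Agent.PN

open Module Polynomial Pool.Agent.helper27.PC

noncomputable section

theorem PW_fockT_append (t : Bool) (m a : ℕ) (l : List ℕ) : ∀ (k : ℕ) (u : St →₀ ℤ[X]),
    fockT t m k (l ++ [a]) u = Rib (wT t m (k + l.sum) a) a (fockT t m k l u) := by
  induction l with
  | nil => intro k u; simp [fockT]
  | cons b l ih =>
    intro k u
    rw [List.cons_append, fockT, ih, fockT, List.sum_cons, add_assoc]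

theorem PW_vecT_append (t : Bool) (m a : ℕ) (l : List ℕ) :
    vecT t m (l ++ [a]) = Rib (wT t m l.sum a) a (vecT t m l) := by
  unfold vecT
  rw [PW_fockT_append, zero_add]

/-- the value of a ribbon operator -/
theorem PW_Rib (w : Lab → ℤ[X]) {a : ℕ} (ha : 1 ≤ a) (u : St →₀ ℤ[X]) (T : St) :
    Rib w a u T = ∑ y ∈ remv a T, (-1) ^ cnt T (dn a y) a * w (dn a y) * u (rem a T y) := by
  rw [LALG_Rib_apply]
  rw [Finset.sum_congr rfl fun S _ => by rw [LALG_kernel w ha]]
  unfold LALG_kL
  rw [Finset.sum_congr rfl fun S _ => Finset.mul_sum _ _ _, Finset.sum_comm]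
  refine Finset.sum_congr rfl fun y _ => ?_
  simp only [mul_ite, mul_zero]
  rw [Finset.sum_ite_eq]
  unfold rem
  split_ifs with h
  · ring
  · rw [Finsupp.notMem_support_iff.1 h, mul_zero]

/-- the sign of a state -/
def PW_e (m : ℕ) (S : St) : ℤ[X] :=
  (-1) ^ (∑ p ∈ SD_pos false S, p + ∑ p ∈ Finset.range m, p)

/-- the sign of a component -/
def PW_s (b : Bool) : ℤ[X] := if b then 1 else -1

theorem PW_e_sq (m : ℕ) (S : St) : PW_e m S ^ 2 = 1 := by
  unfold PW_e
  rw [← pow_mul, mul_comm, pow_mul]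
  norm_num

theorem PW_e_vac (m : ℕ) : PW_e m (vac m) = 1 := by
  unfold PW_e
  have h : SD_pos false (vac m) = Finset.range m := by
    ext p
    rw [SD_mem_pos]
    unfold vac
    simp
  rw [h, ← two_mul, pow_mul]
  norm_num

theorem PW_wT (t : Bool) (m k a : ℕ) (l : Lab) : wT t m k a l = PW_s l.1 * wP t m k a l := by
  unfold wT wP PW_s tb
  unfold wq
  obtain ⟨b, p⟩ := l
  cases t <;> cases b <;> simp

theorem PW_e_rem (m : ℕ) {a : ℕ} (ha : Odd a) {S : St} {y : Lab} (hy : y ∈ remv a S) :
    PW_e m S = PW_s y.1 * PW_e m (rem a S y) := by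
  have ha1 : 1 ≤ a := ha.pos
  unfold remv at hy
  rw [Finset.mem_filter] at hy
  obtain ⟨hyS, hay, hd⟩ := hy
  obtain ⟨h1, h2⟩ := LALG_back ha1 hyS hay hd
  change dn a y ∈ addable a (rem a S y) at h1
  change move a (rem a S y) (dn a y) = S at h2
  obtain ⟨h3, h4⟩ := SD_add h1
  unfold PW_e PW_s
  rcases hb : y.1 with _ | _
  · have hdb : (dn a y).1 = false := hb
    rw [hdb] at h3 h4
    have h5 : (∑ p ∈ SD_pos false S, (p : ℤ)) =
        ∑ p ∈ SD_pos false (rem a S y), (p : ℤ) + a := by
      have h6 := SD_pos_move (a := a) (S := rem a S y) (l := dn a y) false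
      rw [h2, if_pos hdb.symm] at h6
      rw [h6, SD_sum_move (fun x : ℕ => (x : ℤ)) h3 h4]
      push_cast; ring
    have h8 : ((∑ p ∈ SD_pos false S, p : ℕ) : ℤ) =
        ((∑ p ∈ SD_pos false (rem a S y), p + a : ℕ) : ℤ) := by
      push_cast; exact h5
    have h7 := Int.natCast_inj.1 h8
    rw [h7, show ∑ p ∈ SD_pos false (rem a S y), p + a + ∑ p ∈ Finset.range m, p =
      a + (∑ p ∈ SD_pos false (rem a S y), p + ∑ p ∈ Finset.range m, p) by ring, pow_add,
      ha.neg_one_pow]
    simp
  · have hdb : (dn a y).1 = true := hb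
    have h6 := SD_pos_move (a := a) (S := rem a S y) (l := dn a y) false
    rw [h2, if_neg (by rw [hdb]; simp)] at h6
    rw [h6]
    simp

theorem PW_val (t : Bool) (m : ℕ) (l : List ℕ) : (∀ a ∈ l, Odd a) → ∀ S : St,
    vecT t m l S = PW_e m S * U t m l.reverse S := by
  induction l using List.reverseRecOn with
  | nil =>
    intro _ S
    show (Finsupp.single (vac m) (1 : ℤ[X])) S = PW_e m S * (if S = vac m then 1 else 0)
    by_cases h : S = vac m
    · rw [if_pos h, h, Finsupp.single_eq_same, PW_e_vac, mul_one]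
    · rw [if_neg h, mul_zero, Finsupp.single_eq_of_ne h]
  | append_singleton l c ih =>
    intro hl S
    have hc : Odd c := hl c (by simp)
    have hih := ih fun a ha => hl a (by simp [ha])
    rw [PW_vecT_append, PW_Rib _ hc.pos, List.reverse_append, List.reverse_singleton,
      List.singleton_append, U, Finset.mul_sum]
    refine Finset.sum_congr rfl fun y hy => ?_
    rw [hih, PW_wT, List.sum_reverse, PW_e_rem m hc hy]
    show (-1) ^ cnt S (dn c y) c * (PW_s y.1 * wP t m l.sum c (dn c y)) *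
      (PW_e m (rem c S y) * U t m l.reverse (rem c S y)) = _
    ring

theorem PW : PW_stmt := by
  intro t m l hl
  have h1 : nrm (vecT t m l) = ∑ S ∈ ends l.sum (vac m), vecT t m l S ^ 2 := by
    unfold nrm
    refine Finsupp.sum_of_support_subset _ ?_ _ fun S _ => by ring
    intro S hS
    exact NU_vecT_ends t m l (fun a ha => (hl a ha).pos) S (Finsupp.mem_support_iff.1 hS)
  rw [h1]
  refine Finset.sum_congr rfl fun S _ => ?_
  rw [PW_val t m l hl, mul_pow, PW_e_sq, one_mul]

end

end Pool.Agent.PN
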